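import Mathlib
import Pool.Agent.H32.Sun123A1
import Pool.Agent.H32.Sun123A4
import Pool.Agent.H32.Sun123A16
import Pool.Agent.H32.Sun123A64
import Pool.Agent.H32.Sun123A256
import Pool.Agent.H32.Sun123A1024
import Pool.Agent.H32.Sun123A1216

namespace Pool.Agent.Results.MP_42cda2_nt.Unique

open Pool.Agent.H32.Sun123

/-- Property (P). -/
def HasP (a b c : ℕ) : Prop :=
  ∀ n : ℕ, 0 < n → ∃ x y z w : ℕ, n ^ 2 = x ^ 2 + y ^ 2 + z ^ 2 + w ^ 2 ∧
    ∃ k : ℕ, a * x + b * y + c * z = 4 ^ k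

def R3 : List (ℕ × ℕ × ℕ) := [(0,0,0), (0,0,3), (0,1,2), (0,2,1), (0,2,2), (0,3,0), (1,0,2), (1,2,0), (1,2,2), (2,0,1), (2,0,2), (2,1,0), (2,1,2), (2,2,0), (2,2,1), (3,0,0)]

def R6 : List (ℕ × ℕ × ℕ) := [(0,0,0), (0,0,6), (0,2,4), (0,4,2), (0,4,4), (0,6,0), (1,1,3), (1,1,5), (1,3,1), (1,3,5), (1,5,1), (1,5,3), (2,0,4), (2,4,0), (2,4,4), (3,1,1), (3,1,5), (3,3,3), (3,5,1), (4,0,2), (4,0,4), (4,2,0), (4,2,4), (4,4,0), (4,4,2), (5,1,1), (5,1,3), (5,3,1), (6,0,0)]

noncomputable def anyL (l : List (ℕ × ℕ × ℕ)) (a b c : ℕ) : Bool :=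
  l.any fun t => T (a * t.1 + b * t.2.1 + c * t.2.2)

theorem brec_or (X Y : Bool) : Bool.rec (motive := fun _ => Bool) X true Y = (Y || X) := by
  cases Y <;> rfl

theorem brec_imp (X Y : Bool) : Bool.rec (motive := fun _ => Bool) true X Y = (!Y || X) := by
  cases Y <;> rfl

theorem brec_and (X Y : Bool) : Bool.rec (motive := fun _ => Bool) false X Y = (Y && X) := by
  cases Y <;> rfl

theorem t3_eq (a b c : ℕ) : t3 a b c = anyL R3 a b c := by
  simp only [t3, brec_or, anyL, R3, List.any_cons, List.any_nil, Nat.add_eq, Nat.mul_eq,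
    mul_zero, mul_one, zero_add, add_zero]

theorem t6_eq (a b c : ℕ) : t6 a b c = anyL R6 a b c := by
  simp only [t6, brec_or, anyL, R6, List.any_cons, List.any_nil, Nat.add_eq, Nat.mul_eq,
    mul_zero, mul_one, zero_add, add_zero]

theorem allTo_spec (f : ℕ → Bool) (n : ℕ) (h : allTo f n = true) : ∀ c < n, f c = true := by
  induction n with
  | zero => intro c hc; omega
  | succ n ih =>
    have h' : Bool.rec (motive := fun _ => Bool) false (allTo f n) (f n) = true := h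
    rw [brec_and, Bool.and_eq_true] at h'
    intro c hc
    rcases Nat.lt_succ_iff_lt_or_eq.mp hc with h1 | h1
    · exact ih h'.2 c h1
    · rw [h1]; exact h'.1

theorem force_eq (e : ℕ) (f : ℕ → Bool) : force e f = f e := by
  cases e <;> rfl

theorem allBig_spec (f : ℕ → Bool) (h : allBig f = true) (c : ℕ) (hc : c < 1920) :
    f c = true := by
  have h1 := allTo_spec _ _ h (c / 48) (by omega)
  have h2 := allTo_spec _ _ h1 (c % 48) (by omega)
  rw [force_eq] at h2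
  have : Nat.add (Nat.mul 48 (c / 48)) (c % 48) = c := Nat.div_add_mod c 48
  rwa [this] at h2

def rho (v : ℕ) : ℕ := if v < 960 then v else 960 + v % 960

theorem pow4 (k : ℕ) : 4 ^ k = 1 ∨ 4 ^ k = 4 ∨ 4 ^ k = 16 ∨ 4 ^ k = 64 ∨
    4 ^ k % 1920 = 256 ∨ 4 ^ k % 1920 = 1024 := by
  induction k with
  | zero => simp
  | succ k ih => rw [pow_succ]; omega

theorem T_of (v : ℕ) (h : v = 1 ∨ v = 4 ∨ v = 16 ∨ v % 960 = 64 ∨ v % 960 = 256) :
    T v = true := by
  rcases h with h | h | h | h | h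
  · subst h; decide +kernel
  · subst h; decide +kernel
  · subst h; decide +kernel
  · have h' : Nat.mod v 960 = 64 := h
    unfold T; rw [h', brec_and]; simp only [Bool.and_eq_true, Bool.or_eq_true]
    exact ⟨by decide +kernel, Or.inl (by decide +kernel)⟩
  · have h' : Nat.mod v 960 = 256 := h
    unfold T; rw [h', brec_and]; simp only [Bool.and_eq_true, Bool.or_eq_true]
    exact ⟨by decide +kernel, Or.inl (by decide +kernel)⟩

theorem rho_mul (a x : ℕ) : (rho a * x) % 960 = (a * x) % 960 ∧ (a * x < 960 → rho a * x = a * x) := by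
  unfold rho
  split_ifs with h
  · simp
  · refine ⟨?_, fun h2 => ?_⟩
    · have : (960 + a % 960) % 960 = a % 960 := by omega
      rw [Nat.mul_mod, this, Nat.mul_mod a x]
    · rcases Nat.eq_zero_or_pos x with hx | hx
      · simp [hx]
      · exfalso; nlinarith

theorem T_lin (a b c x y z k : ℕ) (h : a * x + b * y + c * z = 4 ^ k) :
    T (rho a * x + rho b * y + rho c * z) = true := by
  apply T_of
  have h1 := rho_mul a x
  have h2 := rho_mul b y
  have h3 := rho_mul c z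
  have h4 := pow4 k
  rw [← h] at h4
  generalize rho a * x = A' at *
  generalize rho b * y = B' at *
  generalize rho c * z = C' at *
  generalize a * x = A at *
  generalize b * y = B at *
  generalize c * z = C at *
  omega

theorem le_of_sq {n x s : ℕ} (h : n ^ 2 = x ^ 2 + s) : x < n + 1 := by
  by_contra hc
  have : n + 1 ≤ x := by omega
  nlinarith

theorem anyN_of {a b c : ℕ} (hP : HasP a b c) (n : ℕ) (hn : 0 < n) :
    anyN n (rho a) (rho b) (rho c) = true := by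
  obtain ⟨x, y, z, w, h, k, hk⟩ := hP n hn
  unfold anyN
  simp only [List.any_eq_true, List.mem_range, Bool.and_eq_true, Nat.beq_eq]
  refine ⟨x, le_of_sq (s := y ^ 2 + z ^ 2 + w ^ 2) (by omega), y,
    le_of_sq (s := x ^ 2 + z ^ 2 + w ^ 2) (by omega), z,
    le_of_sq (s := x ^ 2 + y ^ 2 + w ^ 2) (by omega), T_lin a b c x y z k hk, w,
    le_of_sq (s := x ^ 2 + y ^ 2 + z ^ 2) (by omega), ?_⟩
  simp only [pow_two] at h
  exact h.symm

def compB (n : ℕ) (R : List (ℕ × ℕ × ℕ)) : Bool :=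
  (List.range (n + 1)).all fun x => (List.range (n + 1)).all fun y =>
    (List.range (n + 1)).all fun z => (List.range (n + 1)).all fun w =>
      !(Nat.beq (n ^ 2) (x ^ 2 + y ^ 2 + z ^ 2 + w ^ 2)) ||
        R.any fun t => Nat.beq t.1 x && Nat.beq t.2.1 y && Nat.beq t.2.2 z

theorem comp_of (n : ℕ) (R : List (ℕ × ℕ × ℕ)) (h : compB n R = true) :
    ∀ x < n + 1, ∀ y < n + 1, ∀ z < n + 1, ∀ w < n + 1,
      n ^ 2 = x ^ 2 + y ^ 2 + z ^ 2 + w ^ 2 → (x, y, z) ∈ R := by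
  intro x hx y hy z hz w hw he
  unfold compB at h
  simp only [List.all_eq_true, List.mem_range] at h
  have h1 := h x hx y hy z hz w hw
  rw [← he] at h1
  simp only [Nat.beq_refl, Bool.not_true, Bool.false_or, List.any_eq_true, Bool.and_eq_true,
    Nat.beq_eq] at h1
  obtain ⟨⟨t1, t2, t3⟩, ht, ⟨e1, e2⟩, e3⟩ := h1
  simp only at e1 e2 e3
  subst e1 e2 e3
  exact ht

theorem comp3 : compB 3 R3 = true := by decide +kernel

theorem comp6 : compB 6 R6 = true := by decide +kernel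

theorem anyL_of {a b c : ℕ} (hP : HasP a b c) (n : ℕ) (hn : 0 < n) (R : List (ℕ × ℕ × ℕ))
    (hR : ∀ x < n + 1, ∀ y < n + 1, ∀ z < n + 1, ∀ w < n + 1,
      n ^ 2 = x ^ 2 + y ^ 2 + z ^ 2 + w ^ 2 → (x, y, z) ∈ R) :
    anyL R (rho a) (rho b) (rho c) = true := by
  obtain ⟨x, y, z, w, h, k, hk⟩ := hP n hn
  unfold anyL
  rw [List.any_eq_true]
  exact ⟨(x, y, z), hR x (le_of_sq (s := y ^ 2 + z ^ 2 + w ^ 2) (by omega)) y
    (le_of_sq (s := x ^ 2 + z ^ 2 + w ^ 2) (by omega)) z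
    (le_of_sq (s := x ^ 2 + y ^ 2 + w ^ 2) (by omega)) w
    (le_of_sq (s := x ^ 2 + y ^ 2 + z ^ 2) (by omega)) h, T_lin a b c x y z k hk⟩

theorem of_good {a b c : ℕ} (hP : HasP a b c) (hc : 0 < c)
    (h4 : ¬ (a % 4 = 0 ∧ b % 4 = 0 ∧ c % 4 = 0))
    (hg : good (rho a) (rho b) (rho c) = true) : a = 1 ∧ b = 2 ∧ c = 3 := by
  have hall : ([7, 11, 14, 15, 22, 9, 26, 18, 23, 29].all
      fun n => anyN n (rho a) (rho b) (rho c)) = true := by
    rw [List.all_eq_true]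
    intro n hn
    apply anyN_of hP
    simp only [List.mem_cons, List.not_mem_nil, or_false] at hn
    omega
  unfold good at hg
  rw [t3_eq, t6_eq, anyL_of hP 3 (by norm_num) R3 (comp_of _ _ comp3),
    anyL_of hP 6 (by norm_num) R6 (comp_of _ _ comp6)] at hg
  have hr : rest (rho a) (rho b) (rho c) = true := hg
  unfold rest at hr
  rw [hall] at hr
  simp only [Bool.not_true, Bool.or_false, Bool.or_eq_true, Bool.and_eq_true, Nat.beq_eq] at hr
  unfold rho at hr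
  split_ifs at hr <;> omega

theorem checks (a : ℕ) (h : a = 1 ∨ a = 4 ∨ a = 16 ∨ a = 64 ∨ a = 256 ∨ a = 1024 ∨ a = 1216) :
    (∀ b, (b = 2 ∨ b = 8 ∨ b = 32 ∨ b = 128 ∨ b = 512 ∨ b = 1088 ∨ b = 1472) → check1 a b = true) ∧
    (∀ p, (p = 1 ∨ p = 4 ∨ p = 16 ∨ p = 64 ∨ p = 256) → check2 a p = true) := by
  rcases h with h | h | h | h | h | h | h <;> subst h
  exacts [⟨all1_1, all2_1⟩, ⟨all1_4, all2_4⟩, ⟨all1_16, all2_16⟩, ⟨all1_64, all2_64⟩,
    ⟨all1_256, all2_256⟩, ⟨all1_1024, all2_1024⟩, ⟨all1_1216, all2_1216⟩]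

theorem rho_lt (v : ℕ) : rho v < 1920 := by
  unfold rho; split_ifs <;> omega

theorem core {a b c : ℕ} (hP : HasP a b c) (hb : 0 < b) (hc : 0 < c)
    (h4 : ¬ (a % 4 = 0 ∧ b % 4 = 0 ∧ c % 4 = 0)) (i j : ℕ) (ha : a = 4 ^ i)
    (h2 : 2 * b = 4 ^ j ∨ a + b + c = 4 ^ j) : a = 1 ∧ b = 2 ∧ c = 3 := by
  apply of_good hP hc h4
  have hi := pow4 i
  have hj := pow4 j
  rw [← ha] at hi
  obtain ⟨k1, k2⟩ := checks (rho a) (by unfold rho; split_ifs <;> omega)
  rcases h2 with h2 | h2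
  · rw [← h2] at hj
    exact allBig_spec _ (k1 (rho b) (by unfold rho; split_ifs <;> omega)) (rho c) (rho_lt c)
  · have hT : T (rho a + rho b + rho c) = true := by
      have := T_lin a b c 1 1 1 j (by omega)
      simpa using this
    have hb0 : rho b ≠ 0 := by unfold rho; split_ifs <;> omega
    rw [← h2] at hj
    have k3 := allBig_spec _ (k2 ((a + b + c) % 960) (by omega)) (rho b) (rho_lt b)
    simp only [force_eq, Bool.or_eq_true, Bool.and_eq_true, Nat.beq_eq] at k3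
    obtain ⟨k4, k5⟩ := k3.resolve_left hb0
    have ra := (rho_mul a 1).1
    have rb := (rho_mul b 1).1
    have rc := (rho_mul c 1).1
    simp only [mul_one] at ra rb rc
    have la := rho_lt a
    have lb := rho_lt b
    have lc := rho_lt c
    have hg : g2 (rho a) (rho b) (rho c) = true := by
      have hcc : rho c = ((a + b + c) % 960 + 3840 - rho a - rho b) % 960 ∨
          rho c = ((a + b + c) % 960 + 3840 - rho a - rho b) % 960 + 960 := by omega
      rcases hcc with hcc | hcc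
      · rw [← hcc] at k4; exact k4
      · rw [← hcc] at k5; exact k5
    unfold g2 at hg
    have hT' : T (Nat.add (Nat.add (rho a) (rho b)) (rho c)) = true := hT
    rw [hT'] at hg
    exact hg

theorem swap12 {a b c : ℕ} (hP : HasP a b c) : HasP b a c := fun n hn => by
  obtain ⟨x, y, z, w, h, k, hk⟩ := hP n hn
  exact ⟨y, x, z, w, by omega, k, by omega⟩

theorem swap23 {a b c : ℕ} (hP : HasP a b c) : HasP a c b := fun n hn => by
  obtain ⟨x, y, z, w, h, k, hk⟩ := hP n hn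
  exact ⟨x, z, y, w, by omega, k, by omega⟩

theorem two {a b c : ℕ} (hP : HasP a b c) :
    ∃ j, 2 * a = 4 ^ j ∨ 2 * b = 4 ^ j ∨ 2 * c = 4 ^ j ∨ a + b + c = 4 ^ j := by
  obtain ⟨x, y, z, w, h, k, hk⟩ := hP 2 (by norm_num)
  have hx := le_of_sq (s := y ^ 2 + z ^ 2 + w ^ 2) (n := 2) (x := x) (by omega)
  have hy := le_of_sq (s := x ^ 2 + z ^ 2 + w ^ 2) (n := 2) (x := y) (by omega)
  have hz := le_of_sq (s := x ^ 2 + y ^ 2 + w ^ 2) (n := 2) (x := z) (by omega)
  have hw := le_of_sq (s := x ^ 2 + y ^ 2 + z ^ 2) (n := 2) (x := w) (by omega)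
  have hpos : 0 < 4 ^ k := by positivity
  refine ⟨k, ?_⟩
  interval_cases x <;> interval_cases y <;> interval_cases z <;> interval_cases w <;> omega

theorem core2 {a b c : ℕ} (hP : HasP a b c) (hb : 0 < b) (hc : 0 < c)
    (h4 : ¬ (a % 4 = 0 ∧ b % 4 = 0 ∧ c % 4 = 0)) (i : ℕ) (ha : a = 4 ^ i) :
    (a = 1 ∧ b = 2 ∧ c = 3) ∨ (a = 1 ∧ c = 2 ∧ b = 3) := by
  obtain ⟨j, h | h | h | h⟩ := two hP
  · exfalso
    have hi := pow4 i
    have hj := pow4 j
    rw [← ha] at hi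
    rw [← h] at hj
    omega
  · exact Or.inl (core hP hb hc h4 i j ha (Or.inl h))
  · exact Or.inr (core (swap23 hP) hc hb (by omega) i j ha (Or.inl h))
  · exact Or.inl (core hP hb hc h4 i j ha (Or.inr h))

theorem result (a b c : ℕ) (ha : 0 < a) (hb : 0 < b) (hc : 0 < c)
    (hsq : Squarefree (Nat.gcd (Nat.gcd a b) c)) (hP : HasP a b c) :
    ({a, b, c} : Multiset ℕ) = {1, 2, 3} := by
  have h4 : ¬ (a % 4 = 0 ∧ b % 4 = 0 ∧ c % 4 = 0) := by
    rintro ⟨h1, h2, h3⟩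
    have : 2 * 2 ∣ Nat.gcd (Nat.gcd a b) c :=
      Nat.dvd_gcd (Nat.dvd_gcd (by omega) (by omega)) (by omega)
    have := hsq 2 this
    rw [Nat.isUnit_iff] at this
    omega
  have h1 : ∃ i, a = 4 ^ i ∨ b = 4 ^ i ∨ c = 4 ^ i := by
    obtain ⟨x, y, z, w, h, k, hk⟩ := hP 1 (by norm_num)
    have hx := le_of_sq (s := y ^ 2 + z ^ 2 + w ^ 2) (n := 1) (x := x) (by omega)
    have hy := le_of_sq (s := x ^ 2 + z ^ 2 + w ^ 2) (n := 1) (x := y) (by omega)
    have hz := le_of_sq (s := x ^ 2 + y ^ 2 + w ^ 2) (n := 1) (x := z) (by omega)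
    have hw := le_of_sq (s := x ^ 2 + y ^ 2 + z ^ 2) (n := 1) (x := w) (by omega)
    have hpos : 0 < 4 ^ k := by positivity
    refine ⟨k, ?_⟩
    interval_cases x <;> interval_cases y <;> interval_cases z <;> interval_cases w <;> omega
  obtain ⟨i, h | h | h⟩ := h1
  · rcases core2 hP hb hc h4 i h with ⟨h1, h2, h3⟩ | ⟨h1, h2, h3⟩ <;>
      (subst h1 h2 h3; decide)
  · rcases core2 (swap12 hP) ha hc (by omega) i h with ⟨h1, h2, h3⟩ | ⟨h1, h2, h3⟩ <;>
      (subst h1 h2 h3; decide)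
  · rcases core2 (swap12 (swap23 hP)) ha hb (by omega) i h with ⟨h1, h2, h3⟩ | ⟨h1, h2, h3⟩ <;>
      (subst h1 h2 h3; decide)

end Pool.Agent.Results.MP_42cda2_nt.Unique
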